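import Pool.Agent.TH82.PC.Am

set_option autoImplicit false

/-!
# A sharp example
-/

open scoped Pointwise

namespace Pool.Agent.TH82.PC

/-- pairs of neighbours in `ℤ / 2n` -/
def Pr (n : ℕ) (i : Fin n) : Set (Multiplicative (ZMod (2 * n))) :=
  {x | (Multiplicative.toAdd x).val / 2 = i}

lemma Pr_pow (n : ℕ) [NeZero n] (i : Fin n) (k : ℕ) (x : Multiplicative (ZMod (2 * n)))
    (hx : x ∈ (Pr n i * (Pr n i)⁻¹) ^ k) :
    ∃ j : ℤ, |j| ≤ k ∧ Multiplicative.toAdd x = (j : ZMod (2 * n)) := by
  have : NeZero (2 * n) := ⟨by have := NeZero.ne n; omega⟩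
  induction k generalizing x with
  | zero =>
    rw [pow_zero, Set.mem_one] at hx
    exact ⟨0, by simp, by rw [hx]; simp⟩
  | succ k ih =>
    rw [pow_succ] at hx
    obtain ⟨y, hy, z, hz, rfl⟩ := hx
    obtain ⟨j, hj, hj'⟩ := ih y hy
    obtain ⟨a, ha, b, hb, rfl⟩ := hz
    have hb' : b⁻¹ ∈ Pr n i := hb
    have ha2 : (Multiplicative.toAdd a).val / 2 = i := ha
    have hb2 : (Multiplicative.toAdd b⁻¹).val / 2 = i := hb'
    obtain ⟨u, hu⟩ : ∃ u : ℕ, u = (Multiplicative.toAdd a).val := ⟨_, rfl⟩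
    obtain ⟨v, hv⟩ : ∃ v : ℕ, v = (Multiplicative.toAdd b⁻¹).val := ⟨_, rfl⟩
    have hu' : Multiplicative.toAdd a = (u : ZMod (2 * n)) := by
      rw [hu, ZMod.natCast_zmod_val]
    have hv' : Multiplicative.toAdd b⁻¹ = (v : ZMod (2 * n)) := by
      rw [hv, ZMod.natCast_zmod_val]
    rw [← hu] at ha2
    rw [← hv] at hb2
    refine ⟨j + ((u : ℤ) - v), ?_, ?_⟩
    · push_cast
      rw [abs_le] at hj ⊢
      constructor <;> omega
    · have e : Multiplicative.toAdd b = -(v : ZMod (2 * n)) := by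
        rw [← hv', toAdd_inv, neg_neg]
      change Multiplicative.toAdd (y * (a * b)) = _
      rw [toAdd_mul, toAdd_mul, hj', hu', e]
      push_cast
      ring

theorem sharp (n : ℕ) (hn : 0 < n) : ∃ A : Fin n → Set (Multiplicative (ZMod (2 * n))),
    (⋃ i, A i) = Set.univ ∧ (∀ i j, i ≠ j → Disjoint (A i) (A j)) ∧
    ∀ i, ∀ k < n, ∀ H : Subgroup (Multiplicative (ZMod (2 * n))), H.index ≤ n →
      ((A i * (A i)⁻¹) ^ k : Set (Multiplicative (ZMod (2 * n)))) ≠ H := by
  have : NeZero n := ⟨by omega⟩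
  have : NeZero (2 * n) := ⟨by omega⟩
  refine ⟨Pr n, ?_, ?_, ?_⟩
  · refine Set.eq_univ_of_forall fun x => Set.mem_iUnion.2 ?_
    have h := ZMod.val_lt (Multiplicative.toAdd x)
    exact ⟨⟨(Multiplicative.toAdd x).val / 2, by omega⟩, rfl⟩
  · intro i j hij
    rw [Set.disjoint_left]
    intro x hx hx'
    apply hij
    apply Fin.ext
    have h1 : (Multiplicative.toAdd x).val / 2 = i := hx
    have h2 : (Multiplicative.toAdd x).val / 2 = j := hx'
    omega
  · intro i k hk H hH h
    by_cases h0 : k = 0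
    · subst h0
      rw [pow_zero] at h
      have hbot : H = ⊥ := by
        apply SetLike.coe_injective
        rw [← h]; rfl
      rw [hbot, Subgroup.index_bot] at hH
      have : Nat.card (Multiplicative (ZMod (2 * n))) = 2 * n := by
        rw [Nat.card_congr (Multiplicative.toAdd), Nat.card_zmod]
      omega
    · -- the generator
      have hgen : Multiplicative.ofAdd (1 : ZMod (2 * n)) ∈ H := by
        have hu : (Multiplicative.ofAdd ((2 * (i : ℕ) + 1 : ℕ) : ZMod (2 * n))) ∈ Pr n i := by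
          change ((2 * (i : ℕ) + 1 : ℕ) : ZMod (2 * n)).val / 2 = i
          have := i.2
          rw [ZMod.val_natCast_of_lt (by omega)]
          omega
        have hv : (Multiplicative.ofAdd ((2 * (i : ℕ) : ℕ) : ZMod (2 * n))) ∈ Pr n i := by
          change ((2 * (i : ℕ) : ℕ) : ZMod (2 * n)).val / 2 = i
          have := i.2
          rw [ZMod.val_natCast_of_lt (by omega)]
          omega
        have h1 := mem_Df hu hv
        have e : (Multiplicative.ofAdd ((2 * (i : ℕ) + 1 : ℕ) : ZMod (2 * n))) *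
            (Multiplicative.ofAdd ((2 * (i : ℕ) : ℕ) : ZMod (2 * n)))⁻¹ =
            Multiplicative.ofAdd (1 : ZMod (2 * n)) := by
          rw [← ofAdd_neg, ← ofAdd_add]
          congr 1
          push_cast
          ring
        rw [e] at h1
        have h2 : Multiplicative.ofAdd (1 : ZMod (2 * n)) ∈ Df (Pr n i) ^ 1 := by
          rw [pow_one]; exact h1
        have h3 := Df_mono ⟨_, hu⟩ (by omega : 1 ≤ k) h2
        have h4 : Multiplicative.ofAdd (1 : ZMod (2 * n)) ∈ (H : Set _) := by
          rw [← h]; exact h3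
        exact h4
      have hm : Multiplicative.ofAdd ((n : ℕ) : ZMod (2 * n)) ∈ H := by
        have h1 := pow_mem hgen n
        rw [← ofAdd_nsmul] at h1
        simpa using h1
      have h2 : Multiplicative.ofAdd ((n : ℕ) : ZMod (2 * n)) ∈ (Pr n i * (Pr n i)⁻¹) ^ k := by
        rw [h]; exact hm
      obtain ⟨j, hj, hj'⟩ := Pr_pow n i k _ h2
      have h3 : ((n : ℤ) : ZMod (2 * n)) = (j : ZMod (2 * n)) := by
        rw [← hj']; simp
      rw [ZMod.intCast_eq_intCast_iff_dvd_sub] at h3
      obtain ⟨c, hc⟩ := h3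
      rw [abs_le] at hj
      push_cast at hc
      have h4 : j - n = 2 * n * c := hc
      have hn' : (0 : ℤ) < n := by exact_mod_cast hn
      have hk' : (k : ℤ) < n := by exact_mod_cast hk
      have h5 : (-2 : ℤ) * n < 2 * n * c := by linarith
      have h6 : 2 * n * c < (0 : ℤ) := by linarith
      have h7 : c < 0 := by
        by_contra hcc
        push Not at hcc
        have : (0 : ℤ) ≤ 2 * n * c := by positivity
        omega
      have h8 : c ≤ -1 := by omega
      have h9 : (2 : ℤ) * n * c ≤ 2 * n * (-1) := by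
        apply mul_le_mul_of_nonneg_left h8; positivity
      linarith

end Pool.Agent.TH82.PC
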