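import Pool.Agent.TH82.PC.Geo

set_option autoImplicit false

/-!
# Groups with an invariant mean, two cells, and a sharp example
-/

open scoped Pointwise

namespace Pool.Agent.TH82.PC

variable {G : Type*} [Group G] {n : ℕ}

section Mean

variable {μ : Set G → ℝ}

theorem mean_packing (h0 : ∀ s, 0 ≤ μ s) (h1 : μ Set.univ = 1)
    (hadd : ∀ s t, Disjoint s t → μ (s ∪ t) = μ s + μ t)
    (hinv : ∀ (g : G) (s : Set G), μ ((fun x => g * x) '' s) = μ s)
    (A : Fin n → Set G) (hA : (⋃ i, A i) = Set.univ) :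
    ∃ i : Fin n, (A i).Nonempty ∧ Pk (A i) 1 n := by
  classical
  have hmono : ∀ s t : Set G, s ⊆ t → μ s ≤ μ t := by
    intro s t hst
    have e := hadd s (t \ s) Set.disjoint_sdiff_right
    rw [Set.union_sdiff_cancel hst] at e
    rw [e]
    linarith [h0 (t \ s)]
  have hempty : μ ∅ = 0 := by
    have e := hadd ∅ ∅ (Set.disjoint_empty _)
    rw [Set.union_empty] at e
    linarith
  have hsub : ∀ s t : Set G, μ (s ∪ t) ≤ μ s + μ t := by
    intro s t
    have e := hadd s (t \ s) Set.disjoint_sdiff_right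
    rw [Set.union_sdiff_self] at e
    rw [e]
    linarith [hmono (t \ s) t Set.sdiff_subset]
  have hsubs : ∀ (J : Finset (Fin n)), μ (⋃ i ∈ J, A i) ≤ ∑ i ∈ J, μ (A i) := by
    intro J
    induction J using Finset.induction_on with
    | empty => simp [hempty]
    | insert a J ha ih =>
      rw [Finset.set_biUnion_insert, Finset.sum_insert ha]
      exact (hsub _ _).trans (by linarith)
  have hn : 0 < n := by
    have h : (1 : G) ∈ ⋃ i, A i := by rw [hA]; trivial
    obtain ⟨i, -⟩ := Set.mem_iUnion.1 h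
    exact i.pos
  obtain ⟨i, hi⟩ : ∃ i, 1 ≤ (n : ℝ) * μ (A i) := by
    by_contra hcon
    push Not at hcon
    have h2 : (1 : ℝ) ≤ ∑ i, μ (A i) := by
      have h3 := hsubs Finset.univ
      have e : (⋃ i ∈ (Finset.univ : Finset (Fin n)), A i) = Set.univ := by
        rw [← hA]; simp
      rw [e, h1] at h3
      exact h3
    have hne : (Finset.univ : Finset (Fin n)).Nonempty := ⟨⟨0, hn⟩, Finset.mem_univ _⟩
    have h4 : ∑ i : Fin n, (n : ℝ) * μ (A i) < ∑ _i : Fin n, (1 : ℝ) :=
      Finset.sum_lt_sum_of_nonempty hne fun i _ => hcon i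
    rw [← Finset.mul_sum] at h4
    simp only [Finset.sum_const, Finset.card_univ, Fintype.card_fin, nsmul_eq_mul, mul_one] at h4
    have hn' : (0 : ℝ) < n := by exact_mod_cast hn
    nlinarith
  refine ⟨i, ?_, fun x => ?_⟩
  · by_contra h
    rw [Set.not_nonempty_iff_eq_empty] at h
    rw [h, hempty] at hi
    norm_num at hi
  · by_contra hcon
    push Not at hcon
    have hdisj : ∀ s t, s ≠ t → Disjoint ((fun y => x s * y) '' A i) ((fun y => x t * y) '' A i) := by
      intro s t hst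
      rw [Set.disjoint_left]
      rintro _ ⟨a, ha, rfl⟩ ⟨b, hb, h⟩
      apply hcon s t hst
      rw [pow_one]
      have h' : x t * b = x s * a := h
      have e : (x s)⁻¹ * x t = a * b⁻¹ := by
        rw [eq_mul_inv_iff_mul_eq, mul_assoc, h', inv_mul_cancel_left]
      rw [e]
      exact mem_Df ha hb
    have hsum : ∀ J : Finset (Fin (n + 1)),
        μ (⋃ s ∈ J, (fun y => x s * y) '' A i) = ∑ s ∈ J, μ (A i) := by
      intro J
      induction J using Finset.induction_on with
      | empty => simp [hempty]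
      | insert a J ha ih =>
        rw [Finset.set_biUnion_insert, Finset.sum_insert ha, hadd, ih, hinv]
        rw [Set.disjoint_iUnion_right]
        intro s
        rw [Set.disjoint_iUnion_right]
        intro hs
        exact hdisj a s (fun e => ha (by rw [e]; exact hs))
    have h5 := hsum Finset.univ
    have h6 := hmono (⋃ s ∈ (Finset.univ : Finset (Fin (n + 1))), (fun y => x s * y) '' A i)
      Set.univ (Set.subset_univ _)
    rw [h5, h1] at h6
    simp only [Finset.sum_const, Finset.card_univ, Fintype.card_fin, nsmul_eq_mul] at h6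
    push_cast at h6
    have h7 := h0 (A i)
    have h8 : (n : ℝ) * μ (A i) + μ (A i) ≤ 1 := by linarith
    have h9 : μ (A i) = 0 := by linarith
    rw [h9] at hi
    norm_num at hi

end Mean

/-- groups with an invariant mean -/
theorem cover_mean {μ : Set G → ℝ} (h0 : ∀ s, 0 ≤ μ s) (h1 : μ Set.univ = 1)
    (hadd : ∀ s t, Disjoint s t → μ (s ∪ t) = μ s + μ t)
    (hinv : ∀ (g : G) (s : Set G), μ ((fun x => g * x) '' s) = μ s)
    (A : Fin n → Set G) (hA : (⋃ i, A i) = Set.univ) :
    ∃ i : Fin n, ∃ H : Subgroup G, H.index ≠ 0 ∧ H.index ≤ n ∧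
      ∀ k, n / H.index ≤ k → ((A i * (A i)⁻¹) ^ k : Set G) = (H : Set G) := by
  obtain ⟨i, hne, hpk⟩ := mean_packing h0 h1 hadd hinv A hA
  exact ⟨i, Subgroup.closure (Df (A i)), hpk.index.1, hpk.index.2, fun k hk => hpk.one hne k hk⟩

/-- two cells, all groups -/
theorem cover_two (A : Fin 2 → Set G) (hA : (⋃ i, A i) = Set.univ) :
    ∃ i : Fin 2, ∃ H : Subgroup G, H.index ≠ 0 ∧ H.index ≤ 2 ∧
      ∀ k, 2 / H.index ≤ k → ((A i * (A i)⁻¹) ^ k : Set G) = (H : Set G) := by
  classical
  have hcov : ∀ g : G, ∃ i, g ∈ A i := fun g => Set.mem_iUnion.1 (by rw [hA]; trivial)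
  have hother : ∀ b i : Fin 2, i ≠ b → i = 1 - b := by decide
  -- one cell whose second power is everything
  have full : ∀ i : Fin 2, (A i).Nonempty → (∀ g : G, g ∈ Df (A i) ^ 2) →
      ∃ i : Fin 2, ∃ H : Subgroup G, H.index ≠ 0 ∧ H.index ≤ 2 ∧
      ∀ k, 2 / H.index ≤ k → ((A i * (A i)⁻¹) ^ k : Set G) = (H : Set G) := by
    intro i hi h
    refine ⟨i, ⊤, by simp, by simp, fun k hk => ?_⟩
    rw [Subgroup.index_top] at hk
    rw [Subgroup.coe_top]
    exact Set.eq_univ_of_forall fun g => Df_mono hi (by simpa using hk) (h g)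
  by_cases hne : ∀ i, (A i).Nonempty
  · by_cases hT : ∀ b ∈ (Finset.univ : Finset (Fin 2)), ∃ z : G,
      ∀ i ∈ (Finset.univ : Finset (Fin 2)), i ≠ b → ∀ d ∈ Df (A i) ^ (2 * 0 + 1),
          d * z ∉ Bl (A i) 0
    · obtain ⟨y, hy⟩ : ∃ y : Fin 2 → G, Tst A Finset.univ 0 y := by
        choose! y hy using hT
        exact ⟨y, hy⟩
      have hc : ∀ g, ∃ i ∈ (Finset.univ : Finset (Fin 2)), g ∈ Bl (A i) 0 := fun g => by
        obtain ⟨i, hi⟩ := hcov g
        exact ⟨i, Finset.mem_univ i, 1, by simp, g, hi, by simp⟩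
      obtain ⟨i, hi, h1, h2, h3⟩ := success Finset.univ_nonempty (fun i _ => hne i) hc hy
      have h4 := two_cells (fun i _ => hne i) hc hy (by simp) hi
      have h2' : (Subgroup.closure (Df (A i))).index ≤ 2 := by simpa using h2
      refine ⟨i, Subgroup.closure (Df (A i)), h1, h2', fun k hk => ?_⟩
      refine pow_eq_of_subset (hne i) ?_ h4
      have : 1 ≤ 2 / (Subgroup.closure (Df (A i))).index := by
        rw [Nat.one_le_div_iff (by omega)]; exact h2'
      omega
    · push Not at hT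
      obtain ⟨b, -, hb⟩ := hT
      obtain ⟨j, hj⟩ : ∃ j : Fin 2, ∀ i, i ≠ b → i = j := ⟨1 - b, hother b⟩
      refine full j (hne j) fun g => ?_
      obtain ⟨a, ha⟩ := hne j
      obtain ⟨i, _, hib, d, hd, h⟩ := hb (g * a)
      rw [hj i hib] at hd h
      obtain ⟨e, he, a', ha', h'⟩ := Bl_of_mul hd h
      have h2 : e * (a' * a⁻¹) ∈ Df (A j) ^ (2 * 0 + 1 + 0 + 1) :=
        mul_mem_pow he (by rw [pow_one]; exact mem_Df ha' ha)
      have h3 : e * a' = g * a := h'
      rwa [← mul_assoc, h3, mul_inv_cancel_right] at h2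
  · push Not at hne
    obtain ⟨b, hb⟩ := hne
    obtain ⟨j, hj⟩ : ∃ j : Fin 2, ∀ i, i ≠ b → i = j := ⟨1 - b, hother b⟩
    have hall : ∀ g, g ∈ A j := by
      intro g
      obtain ⟨i, hi⟩ := hcov g
      have : i ≠ b := by
        rintro rfl
        rw [hb] at hi
        exact hi
      rwa [hj i this] at hi
    refine full j ⟨1, hall 1⟩ fun g => ?_
    have h1 : g ∈ Df (A j) ^ 1 := by
      rw [pow_one]
      have := mem_Df (hall g) (hall 1)
      rwa [inv_one, mul_one] at this
    exact Df_mono ⟨1, hall 1⟩ (by norm_num) h1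

/-- one cell -/
theorem cover_one (A : Fin 1 → Set G) (hA : (⋃ i, A i) = Set.univ) :
    ∃ i : Fin 1, ∃ H : Subgroup G, H.index ≠ 0 ∧ H.index ≤ 1 ∧
      ∀ k, 1 / H.index ≤ k → ((A i * (A i)⁻¹) ^ k : Set G) = (H : Set G) := by
  have hall : ∀ g, g ∈ A 0 := by
    intro g
    obtain ⟨i, hi⟩ := Set.mem_iUnion.1 (by rw [hA]; trivial : g ∈ ⋃ i, A i)
    rwa [Subsingleton.elim i 0] at hi
  refine ⟨0, ⊤, by simp, by simp, fun k hk => ?_⟩
  rw [Subgroup.index_top] at hk
  rw [Subgroup.coe_top]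
  refine Set.eq_univ_of_forall fun g => Df_mono ⟨1, hall 1⟩ (by simpa using hk) ?_
  rw [pow_one]
  have := mem_Df (hall g) (hall 1)
  rwa [inv_one, mul_one] at this

end Pool.Agent.TH82.PC
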