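import Mathlib

set_option autoImplicit false

/-!
# Covers of a group by finitely many sets: powers of difference sets
-/

open scoped Pointwise

namespace Pool.Agent.TH82.PC

variable {G : Type*} [Group G]

/-- the difference set -/
def Df (A : Set G) : Set G := A * A⁻¹

lemma Df_inv (A : Set G) : (Df A)⁻¹ = Df A := by
  unfold Df; rw [mul_inv_rev, inv_inv]

lemma Df_pow_inv (A : Set G) (k : ℕ) : (Df A ^ k)⁻¹ = Df A ^ k := by
  rw [← inv_pow, Df_inv]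

lemma one_mem_Df {A : Set G} (hA : A.Nonempty) : (1 : G) ∈ Df A := by
  obtain ⟨a, ha⟩ := hA
  exact ⟨a, ha, a⁻¹, Set.inv_mem_inv.2 ha, mul_inv_cancel a⟩

lemma Df_mono {A : Set G} (hA : A.Nonempty) {j k : ℕ} (h : j ≤ k) : Df A ^ j ⊆ Df A ^ k :=
  Set.pow_subset_pow_right (one_mem_Df hA) h

lemma one_mem_pow {A : Set G} (hA : A.Nonempty) (k : ℕ) : (1 : G) ∈ Df A ^ k :=
  Df_mono hA (Nat.zero_le k) (by simp)

lemma inv_mem_pow {A : Set G} {k : ℕ} {x : G} (h : x ∈ Df A ^ k) : x⁻¹ ∈ Df A ^ k := by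
  rw [← Df_pow_inv, Set.inv_mem_inv]; exact h

lemma mul_mem_pow {A : Set G} {j k : ℕ} {x y : G} (hx : x ∈ Df A ^ j) (hy : y ∈ Df A ^ k) :
    x * y ∈ Df A ^ (j + k) := by
  rw [pow_add]; exact Set.mul_mem_mul hx hy

lemma mem_Df {A : Set G} {a b : G} (ha : a ∈ A) (hb : b ∈ A) : a * b⁻¹ ∈ Df A :=
  ⟨a, ha, b⁻¹, Set.inv_mem_inv.2 hb, rfl⟩

/-- the neighbourhoods -/
def Bl (A : Set G) (r : ℕ) : Set G := Df A ^ r * A

lemma Bl_div {A : Set G} {r : ℕ} {u v : G} (hu : u ∈ Bl A r) (hv : v ∈ Bl A r) :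
    u * v⁻¹ ∈ Df A ^ (2 * r + 1) := by
  obtain ⟨d, hd, a, ha, rfl⟩ := hu
  obtain ⟨e, he, b, hb, rfl⟩ := hv
  have h1 : d * (a * b⁻¹) * e⁻¹ ∈ Df A ^ (r + 1 + r) :=
    mul_mem_pow (mul_mem_pow hd (by rw [pow_one]; exact mem_Df ha hb)) (inv_mem_pow he)
  have h2 : (fun x1 x2 : G => x1 * x2) d a * ((fun x1 x2 : G => x1 * x2) e b)⁻¹
      = d * (a * b⁻¹) * e⁻¹ := by
    simp only [mul_inv_rev, mul_assoc]
  rw [h2]
  convert h1 using 2
  ring

lemma Bl_of_mul {A : Set G} {r s : ℕ} {d y : G} (hd : d ∈ Df A ^ s) (hy : d * y ∈ Bl A r) :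
    y ∈ Bl A (s + r) := by
  obtain ⟨e, he, a, ha, h⟩ := hy
  refine ⟨d⁻¹ * e, mul_mem_pow (inv_mem_pow hd) he, a, ha, ?_⟩
  have h' : e * a = d * y := h
  change d⁻¹ * e * a = y
  rw [mul_assoc, h', inv_mul_cancel_left]

/-- packing -/
lemma packing {Q : Type*} [Group Q] [Finite Q] {B : Set Q} (hB : B.Nonempty) {m : ℕ}
    (hm : Nat.card Q ≤ m * Nat.card B) (g : Fin (m + 1) → Q)
    (hg : ∀ s t, s ≠ t → ∀ b ∈ B, ∀ b' ∈ B, g s * b ≠ g t * b') : False := by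
  classical
  have hinj : Function.Injective (fun p : Fin (m + 1) × B => g p.1 * (p.2 : Q)) := by
    rintro ⟨s, b⟩ ⟨t, b'⟩ h
    simp only at h
    by_cases hst : s = t
    · subst hst
      have := mul_left_cancel h
      exact Prod.ext rfl (Subtype.ext this)
    · exact absurd h (hg s t hst b b.2 b' b'.2)
  have h1 := Nat.card_le_card_of_injective _ hinj
  rw [Nat.card_prod, Nat.card_fin] at h1
  have h2 : 0 < Nat.card B := by
    have := hB.to_subtype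
    exact Nat.card_pos
  nlinarith

section success

variable {ι : Type*} {A : ι → Set G} {I : Finset ι} {r : ℕ} {y : ι → G}

/-- the test points -/
def Tst (A : ι → Set G) (I : Finset ι) (r : ℕ) (y : ι → G) : Prop :=
  ∀ b ∈ I, ∀ i ∈ I, i ≠ b → ∀ d ∈ Df (A i) ^ (2 * r + 1), d * y b ∉ Bl (A i) r

lemma key (hc : ∀ g, ∃ i ∈ I, g ∈ Bl (A i) r) (hy : Tst A I r y) {b : ι} (hb : b ∈ I) {w : G}
    (hw : ∀ i ∈ I, i ≠ b → w ∈ Df (A i) ^ (2 * r + 1)) : w * y b ∈ Bl (A b) r := by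
  obtain ⟨i, hi, h⟩ := hc (w * y b)
  by_cases hib : i = b
  · rw [← hib]; rw [← hib] at h; exact h
  · exact absurd h (hy b hb i hi hib w (hw i hi hib))

lemma key2 (hc : ∀ g, ∃ i ∈ I, g ∈ Bl (A i) r) (hy : Tst A I r y) {b : ι} (hb : b ∈ I)
    {w v : G} (hw : ∀ i ∈ I, i ≠ b → w ∈ Df (A i) ^ (2 * r + 1))
    (hv : ∀ i ∈ I, i ≠ b → v ∈ Df (A i) ^ (2 * r + 1)) :
    w * v⁻¹ ∈ Df (A b) ^ (2 * r + 1) := by
  have h := Bl_div (key hc hy hb hw) (key hc hy hb hv)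
  rwa [mul_inv_rev, mul_assoc, mul_inv_cancel_left] at h

/-- the common subgroup -/
def Lc (hne : ∀ i ∈ I, (A i).Nonempty) (hc : ∀ g, ∃ i ∈ I, g ∈ Bl (A i) r)
    (hy : Tst A I r y) : Subgroup G where
  carrier := {w | ∀ i ∈ I, w ∈ Df (A i) ^ (2 * r + 1)}
  one_mem' := fun i hi => one_mem_pow (hne i hi) _
  inv_mem' := fun {w} hw i hi => inv_mem_pow (hw i hi)
  mul_mem' := fun {w v} hw hv b hb => by
    have h := key2 hc hy hb (w := w) (v := v⁻¹) (fun i hi _ => hw i hi)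
      (fun i hi _ => inv_mem_pow (hv i hi))
    rwa [inv_inv] at h

lemma mem_Lc {hne : ∀ i ∈ I, (A i).Nonempty} {hc : ∀ g, ∃ i ∈ I, g ∈ Bl (A i) r}
    {hy : Tst A I r y} {w : G} :
    w ∈ Lc hne hc hy ↔ ∀ i ∈ I, w ∈ Df (A i) ^ (2 * r + 1) := Iff.rfl

/-- finitely many cosets -/
lemma finite_cosets (hne : ∀ i ∈ I, (A i).Nonempty) (hc : ∀ g, ∃ i ∈ I, g ∈ Bl (A i) r)
    (hy : Tst A I r y) : ∀ (k : ℕ) (C : Finset ι), C ⊆ I → I.card ≤ C.card + k → ∀ W : Set G,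
      (∀ w ∈ W, ∀ v ∈ W, ∀ i ∈ C, w * v⁻¹ ∈ Df (A i) ^ (2 * r + 1)) →
      ((fun w : G => (QuotientGroup.mk w⁻¹ : G ⧸ Lc hne hc hy)) '' W).Finite := by
  classical
  intro k
  induction k with
  | zero =>
    intro C hC hk W hW
    have hCI : C = I := Finset.eq_of_subset_of_card_le hC (by omega)
    subst hCI
    apply Set.Subsingleton.finite
    rintro _ ⟨w, hw, rfl⟩ _ ⟨v, hv, rfl⟩
    simp only
    rw [QuotientGroup.eq, inv_inv]
    exact fun i hi => hW w hw v hv i hi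
  | succ k ih =>
    intro C hC hk W hW
    by_cases hCI : C = I
    · exact ih C hC (by rw [hCI]; omega) W hW
    obtain ⟨b, hbI, hbC⟩ : ∃ b ∈ I, b ∉ C := by
      by_contra h
      push Not at h
      exact hCI (Finset.Subset.antisymm hC h)
    rcases W.eq_empty_or_nonempty with rfl | ⟨w₀, hw₀⟩
    · simp
    have hsub : ((fun w : G => (QuotientGroup.mk w⁻¹ : G ⧸ Lc hne hc hy)) '' W) ⊆
        ⋃ l ∈ I \ C, ((fun w : G => (QuotientGroup.mk w⁻¹ : G ⧸ Lc hne hc hy)) ''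
          {w ∈ W | w * w₀⁻¹ * y b ∈ Bl (A l) r}) := by
      rintro _ ⟨w, hw, rfl⟩
      obtain ⟨l, hl, h⟩ := hc (w * w₀⁻¹ * y b)
      have hlC : l ∉ C := by
        intro hlC
        exact hy b hbI l hl (fun h' => hbC (h' ▸ hlC)) _ (hW w hw w₀ hw₀ l hlC) h
      simp only [Set.mem_iUnion]
      exact ⟨l, Finset.mem_sdiff.2 ⟨hl, hlC⟩, w, ⟨hw, h⟩, rfl⟩
    refine Set.Finite.subset ?_ hsub
    refine Set.Finite.biUnion (Finset.finite_toSet _) fun l hl => ?_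
    have hl' := Finset.mem_sdiff.1 (Finset.mem_coe.1 hl)
    refine ih (insert l C) (Finset.insert_subset hl'.1 hC) ?_ _ ?_
    · rw [Finset.card_insert_of_notMem hl'.2]; omega
    · rintro w ⟨hw, hw'⟩ v ⟨hv, hv'⟩ i hi
      rcases Finset.mem_insert.1 hi with rfl | hi
      · have h := Bl_div hw' hv'
        have e : w * w₀⁻¹ * y b * (v * w₀⁻¹ * y b)⁻¹ = w * v⁻¹ := by group
        rwa [e] at h
      · exact hW w hw v hv i hi

end success

end Pool.Agent.TH82.PC
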