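import Pool.Agent.TH82.PC.Main

set_option autoImplicit false

/-!
# Minimal covers
-/

open scoped Pointwise

namespace Pool.Agent.TH82.PC

variable {G : Type*} [Group G] {n : ℕ}

/-- labelled points -/
abbrev Lab (G : Type*) (n : ℕ) : Type _ := G → Fin n → Bool

/-- the shift -/
def sh (g : G) (ω : Lab G n) : Lab G n := fun x => ω (x * g)

lemma sh_continuous (g : G) : Continuous (sh g : Lab G n → Lab G n) :=
  continuous_pi fun x => continuous_apply (x * g)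

lemma sh_sh (f g : G) (ω : Lab G n) : sh f (sh g ω) = sh (f * g) ω := by
  funext x; simp [sh, mul_assoc]

/-- the covers whose difference sets are not larger than those of `A` -/
def Om (A : Fin n → Set G) : Set (Lab G n) :=
  {ω | (∀ x, ∃ i, ω x i = true) ∧
    ∀ x x' i, ω x i = true → ω x' i = true → x * x'⁻¹ ∈ Df (A i)}

lemma isClosed_Om (A : Fin n → Set G) : IsClosed (Om A) := by
  have e : Om A = (⋂ x : G, {ω : Lab G n | ∃ i, ω x i = true}) ∩
      (⋂ x : G, ⋂ x' : G, ⋂ i : Fin n,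
        {ω : Lab G n | ω x i = true → ω x' i = true → x * x'⁻¹ ∈ Df (A i)}) := by
    ext ω
    simp only [Om, Set.mem_ofPred_eq, Set.mem_inter_iff, Set.mem_iInter]
  rw [e]
  refine IsClosed.inter ?_ ?_
  · refine isClosed_iInter fun x => ?_
    have : {ω : Lab G n | ∃ i, ω x i = true} = (fun ω : Lab G n => ω x) ⁻¹' {c | ∃ i, c i = true} :=
      rfl
    rw [this]
    exact (isClosed_discrete _).preimage (continuous_apply x)
  · refine isClosed_iInter fun x => isClosed_iInter fun x' => isClosed_iInter fun i => ?_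
    have : {ω : Lab G n | ω x i = true → ω x' i = true → x * x'⁻¹ ∈ Df (A i)} =
        (fun ω : Lab G n => (ω x i, ω x' i)) ⁻¹'
          {c : Bool × Bool | c.1 = true → c.2 = true → x * x'⁻¹ ∈ Df (A i)} := rfl
    rw [this]
    refine (isClosed_discrete _).preimage ?_
    exact ((continuous_apply i).comp (continuous_apply x)).prodMk
      ((continuous_apply i).comp (continuous_apply x'))

lemma sh_mem_Om {A : Fin n → Set G} (g : G) {ω : Lab G n} (h : ω ∈ Om A) : sh g ω ∈ Om A := by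
  refine ⟨fun x => h.1 (x * g), fun x x' i hx hx' => ?_⟩
  have := h.2 (x * g) (x' * g) i hx hx'
  rwa [mul_inv_rev, mul_assoc, mul_inv_cancel_left] at this

/-- a minimal closed invariant set -/
theorem exists_minimal (A : Fin n → Set G) (hA : (⋃ i, A i) = Set.univ) :
    ∃ S : Set (Lab G n), S.Nonempty ∧ IsClosed S ∧ S ⊆ Om A ∧ (∀ g, ∀ ω ∈ S, sh g ω ∈ S) ∧
      ∀ T : Set (Lab G n), T.Nonempty → IsClosed T → T ⊆ S → (∀ g, ∀ ω ∈ T, sh g ω ∈ T) →
        T = S := by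
  classical
  obtain ⟨P, hP⟩ : ∃ P : Set (Set (Lab G n)), P = {S | S.Nonempty ∧ IsClosed S ∧ S ⊆ Om A ∧
      (∀ g, ∀ ω ∈ S, sh g ω ∈ S)} := ⟨_, rfl⟩
  have hne : (Om A) ∈ P := by
    rw [hP]
    refine ⟨?_, isClosed_Om A, subset_rfl, fun g ω h => sh_mem_Om g h⟩
    refine ⟨fun x i => decide (x ∈ A i), ?_, ?_⟩
    · intro x
      have : x ∈ ⋃ i, A i := by rw [hA]; trivial
      obtain ⟨i, hi⟩ := Set.mem_iUnion.1 this
      exact ⟨i, by simpa using hi⟩
    · intro x x' i hx hx'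
      exact mem_Df (by simpa using hx) (by simpa using hx')
  have hzorn : ∀ c ⊆ P, IsChain (· ⊆ ·) c → c.Nonempty → ∃ lb ∈ P, ∀ s ∈ c, lb ⊆ s := by
    intro c hc hchain hcne
    refine ⟨⋂₀ c, ?_, fun s hs => Set.sInter_subset_of_mem hs⟩
    have hcP : ∀ s ∈ c, s ∈ P := fun s hs => hc hs
    rw [hP] at hcP
    rw [hP]
    refine ⟨?_, isClosed_sInter fun s hs => (hcP s hs).2.1, ?_, ?_⟩
    · have : Nonempty c := hcne.to_subtype
      refine IsCompact.nonempty_sInter_of_directed_nonempty_isCompact_isClosed ?_ ?_ ?_ ?_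
      · intro a ha b hb
        rcases hchain.total ha hb with h | h
        · exact ⟨a, ha, subset_rfl, h⟩
        · exact ⟨b, hb, h, subset_rfl⟩
      · exact fun s hs => (hcP s hs).1
      · exact fun s hs => (hcP s hs).2.1.isCompact
      · exact fun s hs => (hcP s hs).2.1
    · obtain ⟨s, hs⟩ := hcne
      exact (Set.sInter_subset_of_mem hs).trans (hcP s hs).2.2.1
    · intro g ω hω s hs
      exact (hcP s hs).2.2.2 g ω (hω s hs)
  obtain ⟨S, hS, hSmin⟩ : ∃ S ∈ P, ∀ T ∈ P, T ⊆ S → T = S := by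
    obtain ⟨S, _, hS⟩ := zorn_superset_nonempty P hzorn (Om A) hne
    exact ⟨S, hS.prop, fun T hT hTS => hS.eq_of_subset hT hTS⟩
  rw [hP] at hS
  refine ⟨S, hS.1, hS.2.1, hS.2.2.1, hS.2.2.2, fun T h1 h2 h3 h4 => ?_⟩
  refine hSmin T ?_ h3
  rw [hP]
  exact ⟨h1, h2, h3.trans hS.2.2.1, h4⟩

/-- uniform recurrence -/
theorem exists_recurrent (A : Fin n → Set G) (hA : (⋃ i, A i) = Set.univ) :
    ∃ ω ∈ Om A, ∀ E : Finset G, ∃ F : Finset G, ∀ g : G, ∃ f ∈ F, ∀ x ∈ E, ω (x * (f * g)) = ω x := by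
  classical
  obtain ⟨S, hne, hcl, hsub, hinv, hmin⟩ := exists_minimal A hA
  obtain ⟨ω, hω⟩ := hne
  refine ⟨ω, hsub hω, fun E => ?_⟩
  obtain ⟨U, hU⟩ : ∃ U : Set (Lab G n), U = {ω' | ∀ x ∈ E, ω' x = ω x} := ⟨_, rfl⟩
  have hUo : IsOpen U := by
    have e : U = ⋂ x ∈ E, {ω' : Lab G n | ω' x = ω x} := by
      rw [hU]; ext ω'; simp only [Set.mem_ofPred_eq, Set.mem_iInter]
    rw [e]
    refine isOpen_biInter_finset fun x _ => ?_
    have : {ω' : Lab G n | ω' x = ω x} = (fun ω' : Lab G n => ω' x) ⁻¹' {ω x} := rfl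
    rw [this]
    exact (isOpen_discrete _).preimage (continuous_apply x)
  have hcov : S ⊆ ⋃ g : G, (sh g : Lab G n → Lab G n) ⁻¹' U := by
    by_contra hcon
    rw [Set.not_subset] at hcon
    obtain ⟨ω', hω', hnot⟩ := hcon
    have hT := hmin (S ∩ {η | ∀ g : G, sh g η ∉ U}) ⟨ω', hω', fun g hg =>
      hnot (Set.mem_iUnion.2 ⟨g, hg⟩)⟩ ?_ Set.inter_subset_left ?_
    · have : ω ∈ S ∩ {η | ∀ g : G, sh g η ∉ U} := by rw [hT]; exact hω
      apply this.2 1
      rw [hU]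
      intro x _
      simp [sh]
    · refine hcl.inter ?_
      have e : {η : Lab G n | ∀ g : G, sh g η ∉ U} = ⋂ g : G, (sh g ⁻¹' U)ᶜ := by
        ext η; simp
      rw [e]
      exact isClosed_iInter fun g => (hUo.preimage (sh_continuous g)).isClosed_compl
    · rintro g η ⟨h1, h2⟩
      refine ⟨hinv g η h1, fun h => ?_⟩
      rw [sh_sh]
      exact h2 (h * g)
  obtain ⟨F, hF⟩ := hcl.isCompact.elim_finite_subcover _
    (fun g : G => hUo.preimage (sh_continuous g)) hcov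
  refine ⟨F, fun g => ?_⟩
  have h1 := hF (hinv g ω hω)
  simp only [Set.mem_iUnion] at h1
  obtain ⟨f, hf, h2⟩ := h1
  refine ⟨f, hf, fun x hx => ?_⟩
  rw [Set.mem_preimage, sh_sh, hU] at h2
  exact h2 x hx

/-- covering numbers by left translates of `V` -/
theorem exists_packing (A : Fin n → Set G) (hA : (⋃ i, A i) = Set.univ) :
    ∃ i : Fin n, (A i).Nonempty ∧ ∀ x : Fin (n + 1) → G, ∃ s t, s ≠ t ∧
      (x s)⁻¹ * x t ∈ Df (A i) ^ 2 := by
  classical
  obtain ⟨ω, hω, hrec⟩ := exists_recurrent A hA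
  obtain ⟨B, hB⟩ : ∃ B : Fin n → Set G, B = fun i => {x | ω x i = true} := ⟨_, rfl⟩
  have hBmem : ∀ x i, x ∈ B i ↔ ω x i = true := by intro x i; rw [hB]; rfl
  have hBcov : ∀ x, ∃ i, x ∈ B i := fun x => by
    obtain ⟨i, hi⟩ := hω.1 x; exact ⟨i, (hBmem x i).2 hi⟩
  have hBD : ∀ i x x', x ∈ B i → x' ∈ B i → x * x'⁻¹ ∈ Df (A i) := fun i x x' hx hx' =>
    hω.2 x x' i ((hBmem x i).1 hx) ((hBmem x' i).1 hx')
  obtain ⟨J, hJ⟩ : ∃ J : Finset (Fin n), J = Finset.univ.filter (fun i => (B i).Nonempty) :=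
    ⟨_, rfl⟩
  have hJmem : ∀ i, i ∈ J ↔ (B i).Nonempty := by
    intro i; rw [hJ, Finset.mem_filter]; simp
  have hJcard : J.card ≤ n := by
    calc J.card ≤ (Finset.univ : Finset (Fin n)).card := Finset.card_le_univ J
      _ = n := by simp
  have hex : ∃ a : Fin n → G, ∀ i ∈ J, a i ∈ B i := by
    have : ∀ i, ∃ a, i ∈ J → a ∈ B i := by
      intro i
      by_cases h : (B i).Nonempty
      · obtain ⟨a, ha⟩ := h; exact ⟨a, fun _ => ha⟩
      · exact ⟨1, fun h' => absurd ((hJmem i).1 h') h⟩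
    choose a ha using this
    exact ⟨a, ha⟩
  obtain ⟨a, ha⟩ := hex
  obtain ⟨V, hV⟩ : ∃ V : Set G, V = {v | ∀ i ∈ J, a i * v ∈ B i} := ⟨_, rfl⟩
  -- `G` is covered by finitely many left translates of `V`
  obtain ⟨F, hF⟩ := hrec (J.image a)
  have hFV : ∀ g : G, ∃ φ ∈ F.image (fun f => f⁻¹), φ⁻¹ * g ∈ V := by
    intro g
    obtain ⟨f, hf, h⟩ := hF g
    refine ⟨f⁻¹, Finset.mem_image_of_mem _ hf, ?_⟩
    rw [hV]
    intro i hi
    rw [inv_inv, hBmem, h (a i) (Finset.mem_image_of_mem a hi), ← hBmem]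
    exact ha i hi
  -- the covering number of a set
  have hcn : ∀ X : Set G, ∃ c : ℕ, (∃ Φ : Finset G, Φ.card = c ∧ ∀ g ∈ X, ∃ φ ∈ Φ, φ⁻¹ * g ∈ V) ∧
      ∀ Φ : Finset G, (∀ g ∈ X, ∃ φ ∈ Φ, φ⁻¹ * g ∈ V) → c ≤ Φ.card := by
    intro X
    have h : ∃ c : ℕ, ∃ Φ : Finset G, Φ.card = c ∧ ∀ g ∈ X, ∃ φ ∈ Φ, φ⁻¹ * g ∈ V :=
      ⟨_, F.image (fun f => f⁻¹), rfl, fun g _ => hFV g⟩
    refine ⟨Nat.find h, Nat.find_spec h, fun Φ hΦ => Nat.find_min' h ⟨Φ, rfl, hΦ⟩⟩
  choose c hc1 hc2 using hcn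
  -- a heavy cell
  obtain ⟨i, hiJ, hi⟩ : ∃ i ∈ J, c Set.univ ≤ J.card * c (B i) := by
    by_contra hcon
    push Not at hcon
    choose Φ hΦ1 hΦ2 using fun i => hc1 (B i)
    have h1 : c Set.univ ≤ (J.biUnion Φ).card := by
      refine hc2 _ _ fun g _ => ?_
      obtain ⟨i, hi⟩ := hBcov g
      obtain ⟨φ, hφ, h⟩ := hΦ2 i g hi
      exact ⟨φ, Finset.mem_biUnion.2 ⟨i, (hJmem i).2 ⟨g, hi⟩, hφ⟩, h⟩
    have h2 : (J.biUnion Φ).card ≤ ∑ i ∈ J, c (B i) :=
      Finset.card_biUnion_le.trans (le_of_eq (Finset.sum_congr rfl fun i _ => hΦ1 i))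
    have h3 : J.card * c Set.univ ≤ ∑ i ∈ J, J.card * c (B i) := by
      rw [← Finset.mul_sum]; exact Nat.mul_le_mul_left _ (h1.trans h2)
    have hJne : J.Nonempty := by
      obtain ⟨i, hi⟩ := hBcov 1
      exact ⟨i, (hJmem i).2 ⟨1, hi⟩⟩
    have h4 : ∑ i ∈ J, J.card * c (B i) < ∑ i ∈ J, c Set.univ :=
      Finset.sum_lt_sum_of_nonempty hJne hcon
    rw [Finset.sum_const, smul_eq_mul] at h4
    omega
  have hai := ha i hiJ
  have hAne : (A i).Nonempty := by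
    have := hBD i _ _ hai hai
    obtain ⟨u, hu, _⟩ := this
    exact ⟨u, hu⟩
  refine ⟨i, hAne, fun x => ?_⟩
  by_contra hcon
  push Not at hcon
  obtain ⟨Φ, hΦ1, hΦ2⟩ := hc1 Set.univ
  obtain ⟨Ψ, hΨ⟩ : ∃ Ψ : Fin (n + 1) → Finset G, Ψ = fun s =>
      Φ.filter (fun φ => ∃ b ∈ B i, φ⁻¹ * (x s * b) ∈ V) := ⟨_, rfl⟩
  have hΨc : ∀ s, c (B i) ≤ (Ψ s).card := by
    intro s
    have h1 : c (B i) ≤ ((Ψ s).image (fun φ => (x s)⁻¹ * φ)).card := by
      refine hc2 _ _ fun b hb => ?_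
      obtain ⟨φ, hφ, h⟩ := hΦ2 (x s * b) trivial
      refine ⟨(x s)⁻¹ * φ, Finset.mem_image_of_mem _ ?_, ?_⟩
      · rw [hΨ]
        exact Finset.mem_filter.2 ⟨hφ, b, hb, h⟩
      · rw [mul_inv_rev, inv_inv, mul_assoc]; exact h
    exact h1.trans Finset.card_image_le
  have hdisj : ∀ s ∈ (Finset.univ : Finset (Fin (n + 1))), ∀ t ∈ (Finset.univ : Finset (Fin (n + 1))),
      s ≠ t → Disjoint (Ψ s) (Ψ t) := by
    intro s _ t _ hst
    rw [Finset.disjoint_left]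
    intro φ hs ht
    rw [hΨ] at hs ht
    obtain ⟨_, b, hb, hbV⟩ := Finset.mem_filter.1 hs
    obtain ⟨_, b', hb', hbV'⟩ := Finset.mem_filter.1 ht
    rw [hV] at hbV hbV'
    have h1 := hbV i hiJ
    have h2 := hbV' i hiJ
    apply hcon s t hst
    have e : (x s)⁻¹ * x t = (b * (a i * (φ⁻¹ * (x s * b)))⁻¹) *
        ((a i * (φ⁻¹ * (x t * b'))) * b'⁻¹) := by group
    rw [e, pow_two]
    exact Set.mul_mem_mul (hBD i _ _ hb h1) (hBD i _ _ h2 hb')
  have h1 : ∑ s : Fin (n + 1), (Ψ s).card ≤ Φ.card := by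
    rw [← Finset.card_biUnion hdisj]
    apply Finset.card_le_card
    intro φ hφ
    obtain ⟨s, _, hs⟩ := Finset.mem_biUnion.1 hφ
    rw [hΨ] at hs
    exact (Finset.mem_filter.1 hs).1
  have h2 : (n + 1) * c (B i) ≤ ∑ s : Fin (n + 1), (Ψ s).card := by
    calc (n + 1) * c (B i) = ∑ _s : Fin (n + 1), c (B i) := by simp
      _ ≤ _ := Finset.sum_le_sum fun s _ => hΨc s
  have h3 : 0 < c (B i) := by
    rw [Nat.pos_iff_ne_zero]
    intro h0
    obtain ⟨Φ', hΦ', h⟩ := hc1 (B i)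
    rw [h0, Finset.card_eq_zero] at hΦ'
    obtain ⟨φ, hφ, _⟩ := h _ hai
    rw [hΦ'] at hφ
    exact absurd hφ (Finset.notMem_empty φ)
  rw [hΦ1] at h1
  have h4 : (n + 1) * c (B i) ≤ n * c (B i) :=
    (h2.trans h1).trans (hi.trans (Nat.mul_le_mul_right _ hJcard))
  nlinarith

/-- the linear exponent -/
theorem linear_powers (A : Fin n → Set G) (hA : (⋃ i, A i) = Set.univ) :
    ∃ i : Fin n, ∃ H : Subgroup G, H.index ≠ 0 ∧ H.index ≤ n ∧
      ∀ k, 3 * n - 1 ≤ k → ((A i * (A i)⁻¹) ^ k : Set G) = (H : Set G) := by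
  classical
  obtain ⟨i, hne, hpk⟩ := exists_packing A hA
  have hidx : (Subgroup.closure (Df (A i))).index ≠ 0 ∧
      (Subgroup.closure (Df (A i))).index ≤ n := by
    by_contra hcon
    obtain ⟨f⟩ : Nonempty (Fin (n + 1) ↪ G ⧸ Subgroup.closure (Df (A i))) := by
      rcases finite_or_infinite (G ⧸ Subgroup.closure (Df (A i))) with hf | hf
      · have h0 : (Subgroup.closure (Df (A i))).index ≠ 0 := by
          unfold Subgroup.index
          exact Nat.card_pos.ne'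
        have h1 : n < (Subgroup.closure (Df (A i))).index := by
          by_contra h
          exact hcon ⟨h0, not_lt.1 h⟩
        have := Fintype.ofFinite (G ⧸ Subgroup.closure (Df (A i)))
        apply Function.Embedding.nonempty_of_card_le
        rw [Fintype.card_fin]
        unfold Subgroup.index at h1
        rw [Nat.card_eq_fintype_card] at h1
        exact h1
      · exact ⟨(Fin.valEmbedding).trans (Infinite.natEmbedding _)⟩
    obtain ⟨s, t, hst, h⟩ := hpk (fun s => (f s).out)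
    apply hst
    apply f.injective
    rw [← QuotientGroup.out_eq' (f s), ← QuotientGroup.out_eq' (f t), QuotientGroup.eq]
    exact pow_subset_closure _ _ h
  refine ⟨i, Subgroup.closure (Df (A i)), hidx.1, hidx.2, fun k hk => ?_⟩
  refine pow_eq_of_subset hne hk ?_
  intro x hx
  have hex := closure_subset_pow hne hx
  obtain ⟨q, hq, hmin⟩ : ∃ q, x ∈ Df (A i) ^ q ∧ ∀ j < q, x ∉ Df (A i) ^ j :=
    ⟨Nat.find hex, Nat.find_spec hex, fun j hj => Nat.find_min hex hj⟩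
  have hlt : q < 3 * n := by
    by_contra hge
    push Not at hge
    have hpt : ∀ s : Fin (n + 1), ∃ p ∈ Df (A i) ^ (3 * (s : ℕ)),
        ∃ z ∈ Df (A i) ^ (q - 3 * (s : ℕ)), p * z = x := by
      intro s
      have hs : 3 * (s : ℕ) ≤ q := by omega
      have h1 : x ∈ Df (A i) ^ (3 * (s : ℕ) + (q - 3 * (s : ℕ))) := by
        rw [Nat.add_sub_cancel' hs]; exact hq
      rw [pow_add] at h1
      obtain ⟨p, hp, z, hz, h⟩ := h1
      exact ⟨p, hp, z, hz, h⟩
    choose p hp z hz hpz using hpt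
    obtain ⟨s, t, hst, h⟩ := hpk p
    have main : ∀ s t : Fin (n + 1), (s : ℕ) < t → (p s)⁻¹ * p t ∈ Df (A i) ^ 2 → False := by
      intro s t hst h
      have h1 : x ∈ Df (A i) ^ (3 * (s : ℕ) + 2 + (q - 3 * (t : ℕ))) := by
        have e : x = p s * ((p s)⁻¹ * p t) * z t := by
          rw [mul_inv_cancel_left, hpz]
        rw [e]
        exact mul_mem_pow (mul_mem_pow (hp s) h) (hz t)
      have h2 : 3 * (s : ℕ) + 2 + (q - 3 * (t : ℕ)) < q := by
        have := t.2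
        omega
      exact hmin _ h2 h1
    rcases lt_or_gt_of_ne (fun h' : (s : ℕ) = t => hst (Fin.ext h')) with hlt | hlt
    · exact main s t hlt h
    · apply main t s hlt
      have := inv_mem_pow h
      rwa [mul_inv_rev, inv_inv] at this
  have hq' : q ≤ 3 * n - 1 := by omega
  exact Df_mono hne hq' hq

end Pool.Agent.TH82.PC
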