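import Pool.Agent.TH82.PC.Dyn

set_option autoImplicit false

/-!
# Fractional covering numbers of difference sets
-/

open scoped Pointwise

namespace Pool.Agent.TH82.PC

variable {G : Type*} [Group G] {n : ℕ}

/-- finitely many points of which every left translate of `A A⁻¹` contains a part `1 / n` -/
theorem exists_fractional (A : Fin n → Set G) (hA : (⋃ i, A i) = Set.univ) :
    ∃ i : Fin n, ∃ Φ : Finset G, Φ.Nonempty ∧ ∀ x : G, ∃ Ψ ⊆ Φ, Φ.card ≤ n * Ψ.card ∧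
      ∀ φ ∈ Ψ, φ⁻¹ * x ∈ Df (A i) := by
  classical
  obtain ⟨ω, hω, hrec⟩ := exists_recurrent A hA
  obtain ⟨B, hB⟩ : ∃ B : Fin n → Set G, B = fun i => {x | ω x i = true} := ⟨_, rfl⟩
  have hBmem : ∀ x i, x ∈ B i ↔ ω x i = true := by intro x i; rw [hB]; rfl
  have hBcov : ∀ x, ∃ i, x ∈ B i := fun x => by
    obtain ⟨i, hi⟩ := hω.1 x; exact ⟨i, (hBmem x i).2 hi⟩
  have hBD : ∀ i x x', x ∈ B i → x' ∈ B i → x * x'⁻¹ ∈ Df (A i) := fun i x x' hx hx' =>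
    hω.2 x x' i ((hBmem x i).1 hx) ((hBmem x' i).1 hx')
  obtain ⟨J, hJ⟩ : ∃ J : Finset (Fin n), J = Finset.univ.filter (fun i => (B i).Nonempty) :=
    ⟨_, rfl⟩
  have hJmem : ∀ i, i ∈ J ↔ (B i).Nonempty := by
    intro i; rw [hJ, Finset.mem_filter]; simp
  have hJcard : J.card ≤ n := by
    calc J.card ≤ (Finset.univ : Finset (Fin n)).card := Finset.card_le_univ J
      _ = n := by simp
  have hex : ∃ a : Fin n → G, ∀ i ∈ J, a i ∈ B i := by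
    have : ∀ i, ∃ a, i ∈ J → a ∈ B i := by
      intro i
      by_cases h : (B i).Nonempty
      · obtain ⟨a, ha⟩ := h; exact ⟨a, fun _ => ha⟩
      · exact ⟨1, fun h' => absurd ((hJmem i).1 h') h⟩
    choose a ha using this
    exact ⟨a, ha⟩
  obtain ⟨a, ha⟩ := hex
  obtain ⟨V, hV⟩ : ∃ V : Set G, V = {v | ∀ i ∈ J, a i * v ∈ B i} := ⟨_, rfl⟩
  obtain ⟨F, hF⟩ := hrec (J.image a)
  have hFV : ∀ g : G, ∃ φ ∈ F.image (fun f => f⁻¹), φ⁻¹ * g ∈ V := by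
    intro g
    obtain ⟨f, hf, h⟩ := hF g
    refine ⟨f⁻¹, Finset.mem_image_of_mem _ hf, ?_⟩
    rw [hV]
    intro i hi
    rw [inv_inv, hBmem, h (a i) (Finset.mem_image_of_mem a hi), ← hBmem]
    exact ha i hi
  have hcn : ∀ X : Set G, ∃ c : ℕ, (∃ Φ : Finset G, Φ.card = c ∧ ∀ g ∈ X, ∃ φ ∈ Φ, φ⁻¹ * g ∈ V) ∧
      ∀ Φ : Finset G, (∀ g ∈ X, ∃ φ ∈ Φ, φ⁻¹ * g ∈ V) → c ≤ Φ.card := by
    intro X
    have h : ∃ c : ℕ, ∃ Φ : Finset G, Φ.card = c ∧ ∀ g ∈ X, ∃ φ ∈ Φ, φ⁻¹ * g ∈ V :=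
      ⟨_, F.image (fun f => f⁻¹), rfl, fun g _ => hFV g⟩
    refine ⟨Nat.find h, Nat.find_spec h, fun Φ hΦ => Nat.find_min' h ⟨Φ, rfl, hΦ⟩⟩
  choose c hc1 hc2 using hcn
  obtain ⟨i, hiJ, hi⟩ : ∃ i ∈ J, c Set.univ ≤ J.card * c (B i) := by
    by_contra hcon
    push Not at hcon
    choose Φ hΦ1 hΦ2 using fun i => hc1 (B i)
    have h1 : c Set.univ ≤ (J.biUnion Φ).card := by
      refine hc2 _ _ fun g _ => ?_
      obtain ⟨i, hi⟩ := hBcov g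
      obtain ⟨φ, hφ, h⟩ := hΦ2 i g hi
      exact ⟨φ, Finset.mem_biUnion.2 ⟨i, (hJmem i).2 ⟨g, hi⟩, hφ⟩, h⟩
    have h2 : (J.biUnion Φ).card ≤ ∑ i ∈ J, c (B i) :=
      Finset.card_biUnion_le.trans (le_of_eq (Finset.sum_congr rfl fun i _ => hΦ1 i))
    have h3 : J.card * c Set.univ ≤ ∑ i ∈ J, J.card * c (B i) := by
      rw [← Finset.mul_sum]; exact Nat.mul_le_mul_left _ (h1.trans h2)
    have hJne : J.Nonempty := by
      obtain ⟨i, hi⟩ := hBcov 1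
      exact ⟨i, (hJmem i).2 ⟨1, hi⟩⟩
    have h4 : ∑ i ∈ J, J.card * c (B i) < ∑ i ∈ J, c Set.univ :=
      Finset.sum_lt_sum_of_nonempty hJne hcon
    rw [Finset.sum_const, smul_eq_mul] at h4
    omega
  obtain ⟨Φ, hΦ1, hΦ2⟩ := hc1 Set.univ
  refine ⟨i, Φ.image (fun φ => φ * (a i)⁻¹), ?_, fun x => ?_⟩
  · obtain ⟨φ, hφ, -⟩ := hΦ2 1 trivial
    exact ⟨_, Finset.mem_image_of_mem _ hφ⟩
  · obtain ⟨Ψ, hΨ⟩ : ∃ Ψ : Finset G, Ψ =
      Φ.filter (fun φ => ∃ b ∈ B i, φ⁻¹ * (x * b) ∈ V) := ⟨_, rfl⟩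
    have hΨc : c (B i) ≤ Ψ.card := by
      have h1 : c (B i) ≤ (Ψ.image (fun φ => x⁻¹ * φ)).card := by
        refine hc2 _ _ fun b hb => ?_
        obtain ⟨φ, hφ, h⟩ := hΦ2 (x * b) trivial
        refine ⟨x⁻¹ * φ, Finset.mem_image_of_mem _ ?_, ?_⟩
        · rw [hΨ]
          exact Finset.mem_filter.2 ⟨hφ, b, hb, h⟩
        · rw [mul_inv_rev, inv_inv, mul_assoc]; exact h
      exact h1.trans Finset.card_image_le
    refine ⟨Ψ.image (fun φ => φ * (a i)⁻¹), ?_, ?_, ?_⟩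
    · apply Finset.image_subset_image
      rw [hΨ]
      exact Finset.filter_subset _ _
    · rw [Finset.card_image_of_injective _ (mul_left_injective _),
        Finset.card_image_of_injective _ (mul_left_injective _), hΦ1]
      exact hi.trans (Nat.mul_le_mul hJcard hΨc)
    · intro ψ hψ
      obtain ⟨φ, hφ, rfl⟩ := Finset.mem_image.1 hψ
      rw [hΨ] at hφ
      obtain ⟨_, b, hb, hbV⟩ := Finset.mem_filter.1 hφ
      rw [hV] at hbV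
      have h1 := hbV i hiJ
      have e : (φ * (a i)⁻¹)⁻¹ * x = (a i * (φ⁻¹ * (x * b))) * b⁻¹ := by group
      rw [e]
      exact hBD i _ _ h1 hb

end Pool.Agent.TH82.PC
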