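import Pool.Agent.TH82.PC.Dyn

set_option autoImplicit false

/-!
# Packing numbers and diameters
-/

open scoped Pointwise

namespace Pool.Agent.TH82.PC

variable {G : Type*} [Group G] {n w : ℕ} {A : Set G}

/-- among `n + 1` elements two differ by an element of `(A A⁻¹) ^ w` -/
def Pk (A : Set G) (w n : ℕ) : Prop :=
  ∀ x : Fin (n + 1) → G, ∃ s t, s ≠ t ∧ (x s)⁻¹ * x t ∈ Df A ^ w

lemma Pk.card (h : Pk A w n) {ι : Type*} [Fintype ι] (hι : n < Fintype.card ι) (x : ι → G) :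
    ∃ s t, s ≠ t ∧ (x s)⁻¹ * x t ∈ Df A ^ w := by
  obtain ⟨f⟩ : Nonempty (Fin (n + 1) ↪ ι) :=
    Function.Embedding.nonempty_of_card_le (by rw [Fintype.card_fin]; exact hι)
  obtain ⟨s, t, hst, h'⟩ := h (fun s => x (f s))
  exact ⟨f s, f t, fun e => hst (f.injective e), h'⟩

lemma Pk.index (hpk : Pk A w n) : (Subgroup.closure (Df A)).index ≠ 0 ∧
    (Subgroup.closure (Df A)).index ≤ n := by
  by_contra hcon
  obtain ⟨f⟩ : Nonempty (Fin (n + 1) ↪ G ⧸ Subgroup.closure (Df A)) := by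
    rcases finite_or_infinite (G ⧸ Subgroup.closure (Df A)) with hf | hf
    · have h0 : (Subgroup.closure (Df A)).index ≠ 0 := by
        unfold Subgroup.index
        exact Nat.card_pos.ne'
      have h1 : n < (Subgroup.closure (Df A)).index := by
        by_contra h
        exact hcon ⟨h0, not_lt.1 h⟩
      have := Fintype.ofFinite (G ⧸ Subgroup.closure (Df A))
      apply Function.Embedding.nonempty_of_card_le
      rw [Fintype.card_fin]
      unfold Subgroup.index at h1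
      rw [Nat.card_eq_fintype_card] at h1
      exact h1
    · exact ⟨(Fin.valEmbedding).trans (Infinite.natEmbedding _)⟩
  obtain ⟨s, t, hst, h⟩ := hpk (fun s => (f s).out)
  apply hst
  apply f.injective
  rw [← QuotientGroup.out_eq' (f s), ← QuotientGroup.out_eq' (f t), QuotientGroup.eq]
  exact pow_subset_closure _ _ h

/-- a path -/
lemma exists_path (x : G) (q : ℕ) (hx : x ∈ Df A ^ q) :
    ∃ p : ℕ → G, p 0 = 1 ∧ p q = x ∧ ∀ s < q, (p s)⁻¹ * p (s + 1) ∈ Df A := by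
  induction q generalizing x with
  | zero =>
    rw [pow_zero, Set.mem_one] at hx
    exact ⟨fun _ => 1, rfl, hx.symm, fun s hs => absurd hs (Nat.not_lt_zero s)⟩
  | succ q ih =>
    rw [pow_succ] at hx
    obtain ⟨y, hy, d, hd, rfl⟩ := hx
    obtain ⟨p, h0, hq, hs⟩ := ih y hy
    refine ⟨fun s => if s ≤ q then p s else y * d, ?_, ?_, ?_⟩
    · simp [h0]
    · simp
    · intro s hsq
      by_cases h : s + 1 ≤ q
      · have h' : s ≤ q := by omega
        simp only [h, h', if_true]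
        exact hs s (by omega)
      · have h' : s = q := by omega
        subst h'
        simp only [le_refl, if_true, h, if_false]
        rw [hq, inv_mul_cancel_left]
        exact hd

lemma path_up {p : ℕ → G} {q : ℕ} (hp : ∀ s < q, (p s)⁻¹ * p (s + 1) ∈ Df A) (s j : ℕ)
    (h : s + j ≤ q) : (p s)⁻¹ * p (s + j) ∈ Df A ^ j := by
  induction j with
  | zero => simp
  | succ j ih =>
    have h1 := ih (by omega)
    have h2 := hp (s + j) (by omega)
    have e : (p s)⁻¹ * p (s + (j + 1)) = ((p s)⁻¹ * p (s + j)) * ((p (s + j))⁻¹ * p (s + j + 1)) := by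
      rw [← add_assoc]; group
    rw [e, pow_succ]
    exact Set.mul_mem_mul h1 h2

/-- the points within distance `R` of `p R` -/
lemma path_near (hA : A.Nonempty) {p : ℕ → G} {q : ℕ}
    (hp : ∀ s < q, (p s)⁻¹ * p (s + 1) ∈ Df A) {R s : ℕ} (hR : 2 * R ≤ q) (hs : s ≤ 2 * R) :
    (p R)⁻¹ * p s ∈ Df A ^ R := by
  rcases le_total R s with h | h
  · have h1 := path_up hp R (s - R) (by omega)
    rw [Nat.add_sub_cancel' h] at h1
    exact Df_mono hA (by omega) h1
  · have h1 := path_up hp s (R - s) (by omega)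
    rw [Nat.add_sub_cancel' h] at h1
    have h2 := inv_mem_pow h1
    rw [mul_inv_rev, inv_inv] at h2
    exact Df_mono hA (by omega) h2

/-- lower bound for distances along a geodesic -/
lemma path_low {p : ℕ → G} {q : ℕ} (h0 : p 0 = 1)
    (hp : ∀ s < q, (p s)⁻¹ * p (s + 1) ∈ Df A) (hmin : ∀ j < q, p q ∉ Df A ^ j)
    {s t j : ℕ} (hst : s + j < t) (ht : t ≤ q) : (p s)⁻¹ * p t ∉ Df A ^ j := by
  intro h
  have h1 := path_up hp 0 s (by omega)
  have h2 := path_up hp t (q - t) (by omega)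
  rw [zero_add, h0, inv_one, one_mul] at h1
  rw [Nat.add_sub_cancel' ht] at h2
  refine hmin (s + j + (q - t)) (by omega) ?_
  have e : p q = p s * ((p s)⁻¹ * p t) * ((p t)⁻¹ * p q) := by group
  rw [e]
  exact mul_mem_pow (mul_mem_pow h1 h) h2

/-- the packing number of the subgroup times its index -/
theorem Pk.geodesic (hA : A.Nonempty) (hpk : Pk A w n) {x : G} {q : ℕ}
    (hx : x ∈ Df A ^ q) (hmin : ∀ j < q, x ∉ Df A ^ j) {R₁ R₂ N₁ N₂ : ℕ}
    (hR : R₁ + R₂ + w < q) (hR₁ : 2 * R₁ ≤ q) (hR₂ : 2 * R₂ ≤ q)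
    (hN₁ : ∀ s < N₁, (w + 1) * s ≤ 2 * R₁) (hN₂ : ∀ s < N₂, (w + 1) * s ≤ 2 * R₂) :
    (Subgroup.closure (Df A)).index * (N₁ + N₂) ≤ n := by
  classical
  obtain ⟨p, h0, hq, hp⟩ := exists_path x q hx
  subst hq
  by_contra hlt
  push Not at hlt
  obtain ⟨hi0, -⟩ := hpk.index
  have hfin : Finite (G ⧸ Subgroup.closure (Df A)) := by
    rw [Subgroup.index] at hi0
    exact (Nat.finite_of_card_ne_zero hi0)
  have := Fintype.ofFinite (G ⧸ Subgroup.closure (Df A))
  -- the points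
  obtain ⟨y, hy⟩ : ∃ y : Fin N₁ ⊕ Fin N₂ → G, y = Sum.elim
      (fun s : Fin N₁ => (p R₁)⁻¹ * p ((w + 1) * (s : ℕ)))
      (fun s : Fin N₂ => p q * ((p R₂)⁻¹ * p ((w + 1) * (s : ℕ)))) := ⟨_, rfl⟩
  have hyl : ∀ s : Fin N₁, y (Sum.inl s) = (p R₁)⁻¹ * p ((w + 1) * (s : ℕ)) := by
    intro s; rw [hy]; rfl
  have hyr : ∀ s : Fin N₂, y (Sum.inr s) = p q * ((p R₂)⁻¹ * p ((w + 1) * (s : ℕ))) := by
    intro s; rw [hy]; rfl
  have n1 : ∀ s : Fin N₁, (p R₁)⁻¹ * p ((w + 1) * (s : ℕ)) ∈ Df A ^ R₁ := fun s =>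
    path_near hA hp hR₁ (hN₁ s s.2)
  have n2 : ∀ s : Fin N₂, (p R₂)⁻¹ * p ((w + 1) * (s : ℕ)) ∈ Df A ^ R₂ := fun s =>
    path_near hA hp hR₂ (hN₂ s s.2)
  have hyH : ∀ s, y s ∈ Subgroup.closure (Df A) := by
    rintro (s | s)
    · rw [hyl]; exact pow_subset_closure _ _ (n1 s)
    · rw [hyr]
      exact mul_mem (pow_subset_closure _ _ hx) (pow_subset_closure _ _ (n2 s))
  have cross : ∀ (s : Fin N₁) (t : Fin N₂), (y (Sum.inl s))⁻¹ * y (Sum.inr t) ∉ Df A ^ w := by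
    intro s t h
    rw [hyl, hyr] at h
    refine hmin (R₁ + w + R₂) (by omega) ?_
    have e : p q = ((p R₁)⁻¹ * p ((w + 1) * (s : ℕ))) *
        (((p R₁)⁻¹ * p ((w + 1) * (s : ℕ)))⁻¹ * (p q * ((p R₂)⁻¹ * p ((w + 1) * (t : ℕ))))) *
        ((p R₂)⁻¹ * p ((w + 1) * (t : ℕ)))⁻¹ := by group
    rw [e]
    exact mul_mem_pow (mul_mem_pow (n1 s) h) (inv_mem_pow (n2 t))
  have low : ∀ a b : ℕ, a < b → (w + 1) * b ≤ q →
      (p ((w + 1) * a))⁻¹ * p ((w + 1) * b) ∉ Df A ^ w := by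
    intro a b hab hb
    refine path_low h0 hp hmin ?_ hb
    have : (w + 1) * (a + 1) ≤ (w + 1) * b := Nat.mul_le_mul_left _ hab
    rw [Nat.mul_add, Nat.mul_one] at this
    omega
  have low' : ∀ a b : ℕ, a ≠ b → (w + 1) * a ≤ q → (w + 1) * b ≤ q →
      (p ((w + 1) * a))⁻¹ * p ((w + 1) * b) ∉ Df A ^ w := by
    intro a b hab ha hb h
    rcases lt_or_gt_of_ne hab with h' | h'
    · exact low a b h' hb h
    · have h2 := inv_mem_pow h
      rw [mul_inv_rev, inv_inv] at h2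
      exact low b a h' ha h2
  obtain ⟨⟨c, s⟩, ⟨c', t⟩, hne, h⟩ := hpk.card (ι := (G ⧸ Subgroup.closure (Df A)) ×
    (Fin N₁ ⊕ Fin N₂)) (by
      rw [Fintype.card_prod, Fintype.card_sum, Fintype.card_fin, Fintype.card_fin,
        ← Nat.card_eq_fintype_card]
      exact hlt) (fun i => i.1.out * y i.2)
  simp only at h
  have hcc : c = c' := by
    rw [← QuotientGroup.out_eq' c, ← QuotientGroup.out_eq' c', QuotientGroup.eq]
    have h1 := pow_subset_closure A w h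
    have e : (c.out)⁻¹ * c'.out = y s * ((c.out * y s)⁻¹ * (c'.out * y t)) * (y t)⁻¹ := by group
    rw [e]
    exact mul_mem (mul_mem (hyH s) h1) (inv_mem (hyH t))
  subst hcc
  have hst : s ≠ t := fun e => hne (by rw [e])
  have h' : (y s)⁻¹ * y t ∈ Df A ^ w := by
    have e : (c.out * y s)⁻¹ * (c.out * y t) = (y s)⁻¹ * y t := by group
    rwa [e] at h
  rcases s with s | s <;> rcases t with t | t
  · rw [hyl, hyl] at h'
    have e : ((p R₁)⁻¹ * p ((w + 1) * (s : ℕ)))⁻¹ * ((p R₁)⁻¹ * p ((w + 1) * (t : ℕ))) =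
        (p ((w + 1) * (s : ℕ)))⁻¹ * p ((w + 1) * (t : ℕ)) := by group
    rw [e] at h'
    refine low' s t (fun e => hst (by rw [Fin.ext e])) ?_ ?_ h'
    · exact (hN₁ s s.2).trans hR₁
    · exact (hN₁ t t.2).trans hR₁
  · exact cross s t h'
  · apply cross t s
    have h2 := inv_mem_pow h'
    rwa [mul_inv_rev, inv_inv] at h2
  · rw [hyr, hyr] at h'
    have e : (p q * ((p R₂)⁻¹ * p ((w + 1) * (s : ℕ))))⁻¹ *
        (p q * ((p R₂)⁻¹ * p ((w + 1) * (t : ℕ)))) =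
        (p ((w + 1) * (s : ℕ)))⁻¹ * p ((w + 1) * (t : ℕ)) := by group
    rw [e] at h'
    refine low' s t (fun e => hst (by rw [Fin.ext e])) ?_ ?_ h'
    · exact (hN₂ s s.2).trans hR₂
    · exact (hN₂ t t.2).trans hR₂

/-- an element of exact length `q` -/
lemma exists_len {x : G} (hA : A.Nonempty) (hx : x ∈ Subgroup.closure (Df A)) :
    ∃ q, x ∈ Df A ^ q ∧ ∀ j < q, x ∉ Df A ^ j := by
  classical
  have hex := closure_subset_pow hA hx
  exact ⟨Nat.find hex, Nat.find_spec hex, fun j hj => Nat.find_min hex hj⟩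

theorem Pk.one (hA : A.Nonempty) (hpk : Pk A 1 n) (k : ℕ)
    (hk : n / (Subgroup.closure (Df A)).index ≤ k) :
    Df A ^ k = (Subgroup.closure (Df A) : Set G) := by
  refine pow_eq_of_subset hA hk ?_
  intro x hx
  obtain ⟨q, hq, hmin⟩ := exists_len hA hx
  obtain ⟨h0, hn⟩ := hpk.index
  obtain ⟨h, hh⟩ : ∃ h, h = (Subgroup.closure (Df A)).index := ⟨_, rfl⟩
  have hm : 1 ≤ n / h := by
    rw [Nat.one_le_div_iff (by omega)]; omega
  rw [← hh]
  refine Df_mono hA ?_ hq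
  by_contra hlt
  push Not at hlt
  have key := hpk.geodesic hA hq hmin (R₁ := (q - 2) / 2) (R₂ := q - 2 - (q - 2) / 2)
    (N₁ := (q - 2) / 2 + 1) (N₂ := q - 2 - (q - 2) / 2 + 1) (by omega) (by omega) (by omega)
    (fun s hs => by omega) (fun s hs => by omega)
  rw [← hh] at key
  have e : (q - 2) / 2 + 1 + (q - 2 - (q - 2) / 2 + 1) = q := by omega
  rw [e] at key
  have : q ≤ n / h := by
    rw [Nat.le_div_iff_mul_le (by omega)]
    rw [mul_comm]; exact key
  omega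

theorem Pk.two (hA : A.Nonempty) (hpk : Pk A 2 n) (k : ℕ)
    (hk : 3 * (n / (Subgroup.closure (Df A)).index) / 2 + 1 ≤ k) :
    Df A ^ k = (Subgroup.closure (Df A) : Set G) := by
  refine pow_eq_of_subset hA hk ?_
  intro x hx
  obtain ⟨q, hq, hmin⟩ := exists_len hA hx
  obtain ⟨h0, hn⟩ := hpk.index
  obtain ⟨h, hh⟩ : ∃ h, h = (Subgroup.closure (Df A)).index := ⟨_, rfl⟩
  have hm : 1 ≤ n / h := by
    rw [Nat.one_le_div_iff (by omega)]; omega
  rw [← hh]
  refine Df_mono hA ?_ hq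
  by_contra hlt
  push Not at hlt
  have key := hpk.geodesic hA hq hmin (R₁ := 3 * (q / 6)) (R₂ := q - 3 - 3 * (q / 6))
    (N₁ := 2 * (q / 6) + 1) (N₂ := 2 * (q - 3 - 3 * (q / 6)) / 3 + 1) (by omega) (by omega)
    (by omega) (fun s hs => by omega) (fun s hs => by omega)
  rw [← hh] at key
  have e : 2 * (q / 6) + 1 + (2 * (q - 3 - 3 * (q / 6)) / 3 + 1) = 2 * q / 3 := by omega
  rw [e] at key
  have : 2 * q / 3 ≤ n / h := by
    rw [Nat.le_div_iff_mul_le (by omega)]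
    rw [mul_comm]; exact key
  omega

/-- every group -/
theorem cover_general (n : ℕ) (A : Fin n → Set G) (hA : (⋃ i, A i) = Set.univ) :
    ∃ i : Fin n, ∃ H : Subgroup G, H.index ≠ 0 ∧ H.index ≤ n ∧
      ∀ k, 3 * (n / H.index) / 2 + 1 ≤ k → ((A i * (A i)⁻¹) ^ k : Set G) = (H : Set G) := by
  obtain ⟨i, hne, hpk⟩ := exists_packing A hA
  have hpk' : Pk (A i) 2 n := hpk
  exact ⟨i, Subgroup.closure (Df (A i)), hpk'.index.1, hpk'.index.2, fun k hk => hpk'.two hne k hk⟩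

end Pool.Agent.TH82.PC
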