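import Pool.Agent.TH82.PC.Cov

set_option autoImplicit false

open scoped Pointwise

namespace Pool.Agent.TH82.PC

variable {G : Type*} [Group G] {ι : Type*} {A : ι → Set G} {I : Finset ι} {r : ℕ} {y : ι → G}

lemma pow_subset_closure (A : Set G) (k : ℕ) :
    Df A ^ k ⊆ (Subgroup.closure (Df A) : Set G) := by
  induction k with
  | zero =>
    rw [pow_zero]
    intro x hx
    rw [Set.mem_one] at hx
    rw [hx]; exact one_mem _
  | succ k ih =>
    rw [pow_succ]
    rintro _ ⟨u, hu, v, hv, rfl⟩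
    exact mul_mem (ih hu) (Subgroup.subset_closure hv)

lemma closure_subset_pow {A : Set G} (hA : A.Nonempty) {x : G}
    (hx : x ∈ Subgroup.closure (Df A)) : ∃ k, x ∈ Df A ^ k := by
  induction hx using Subgroup.closure_induction with
  | mem x hx => exact ⟨1, by rw [pow_one]; exact hx⟩
  | one => exact ⟨0, by simp⟩
  | mul x y _ _ hx hy =>
    obtain ⟨j, hj⟩ := hx
    obtain ⟨k, hk⟩ := hy
    exact ⟨j + k, mul_mem_pow hj hk⟩
  | inv x _ hx =>
    obtain ⟨j, hj⟩ := hx
    exact ⟨j, inv_mem_pow hj⟩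

/-- the case in which all the tests are passed -/
theorem success (hI : I.Nonempty) (hne : ∀ i ∈ I, (A i).Nonempty)
    (hc : ∀ g, ∃ i ∈ I, g ∈ Bl (A i) r) (hy : Tst A I r y) :
    ∃ i ∈ I, (Subgroup.closure (Df (A i))).index ≠ 0 ∧
      (Subgroup.closure (Df (A i))).index ≤ I.card ∧
      (Subgroup.closure (Df (A i)) : Set G) ⊆
        Df (A i) ^ ((2 * r + 2) * I.card - 1 + (2 * r + 1)) := by
  classical
  have hfin : Finite (G ⧸ Lc hne hc hy) := by
    have h := finite_cosets hne hc hy I.card ∅ (Finset.empty_subset _) (by simp) Set.univ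
      (fun w _ v _ i hi => absurd hi (Finset.notMem_empty i))
    rw [Set.image_univ, Set.range_eq_univ.2 ?_, Set.finite_univ_iff] at h
    · exact h
    · intro q
      obtain ⟨g, rfl⟩ := QuotientGroup.mk_surjective q
      exact ⟨g⁻¹, by simp⟩
  have hfi : (Lc hne hc hy).FiniteIndex := Subgroup.finiteIndex_of_finite_quotient
  obtain ⟨K, hK⟩ : ∃ K : Subgroup G, K = (Lc hne hc hy).normalCore := ⟨_, rfl⟩
  have hKn : K.Normal := by rw [hK]; infer_instance
  have hKf : K.FiniteIndex := by rw [hK]; infer_instance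
  have hKL : K ≤ Lc hne hc hy := by rw [hK]; exact Subgroup.normalCore_le _
  have hQf : Finite (G ⧸ K) := Subgroup.finite_quotient_of_finiteIndex
  obtain ⟨Bb, hBb⟩ : ∃ Bb : ι → Set (G ⧸ K),
      Bb = fun i => (fun g : G => (QuotientGroup.mk g : G ⧸ K)) '' Bl (A i) r := ⟨_, rfl⟩
  -- a heavy cell
  obtain ⟨i, hi, hheavy⟩ : ∃ i ∈ I, Nat.card (G ⧸ K) ≤ I.card * Nat.card (Bb i) := by
    by_contra hcon
    push Not at hcon
    have h1 : Nat.card (G ⧸ K) ≤ ∑ i ∈ I, Nat.card (Bb i) := by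
      have hun : (Set.univ : Set (G ⧸ K)) ⊆ ⋃ i ∈ I, Bb i := by
        intro q _
        obtain ⟨g, rfl⟩ := QuotientGroup.mk_surjective q
        obtain ⟨i, hi, h⟩ := hc g
        simp only [Set.mem_iUnion]
        refine ⟨i, hi, ?_⟩
        rw [hBb]
        exact ⟨g, h, rfl⟩
      rw [← Set.ncard_univ]
      calc (Set.univ : Set (G ⧸ K)).ncard ≤ (⋃ i ∈ I, Bb i).ncard :=
            Set.ncard_le_ncard hun (Set.toFinite _)
        _ ≤ ∑ i ∈ I, (Bb i).ncard := Finset.set_ncard_biUnion_le _ _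
        _ = ∑ i ∈ I, Nat.card (Bb i) := rfl
    have h2 : I.card * Nat.card (G ⧸ K) ≤ ∑ i ∈ I, I.card * Nat.card (Bb i) := by
      rw [← Finset.mul_sum]; exact Nat.mul_le_mul_left _ h1
    have h3 : ∑ i ∈ I, I.card * Nat.card (Bb i) < ∑ i ∈ I, Nat.card (G ⧸ K) :=
      Finset.sum_lt_sum_of_nonempty hI hcon
    rw [Finset.sum_const, smul_eq_mul] at h3
    omega
  have hBne : (Bb i).Nonempty := by
    obtain ⟨a, ha⟩ := hne i hi
    rw [hBb]
    exact ⟨_, 1 * a, ⟨1, one_mem_pow (hne i hi) r, a, ha, rfl⟩, rfl⟩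
  have hKD : ∀ κ ∈ K, κ ∈ Df (A i) ^ (2 * r + 1) := fun κ hκ => hKL hκ i hi
  have hKH : K ≤ Subgroup.closure (Df (A i)) := fun κ hκ => pow_subset_closure _ _ (hKD κ hκ)
  -- the packing argument in the group
  have pack : ∀ g : Fin (I.card + 1) → G,
      (∀ s t, s ≠ t → ∀ d ∈ Df (A i) ^ (2 * r + 1), ∀ κ ∈ K, (g s)⁻¹ * g t ≠ d * κ) → False := by
    intro g hg
    refine packing hBne hheavy (fun s => (QuotientGroup.mk (g s) : G ⧸ K)) ?_
    rintro s t hst b hb b' hb' h
    rw [hBb] at hb hb'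
    obtain ⟨u, hu, rfl⟩ := hb
    obtain ⟨v, hv, rfl⟩ := hb'
    simp only at h
    rw [← QuotientGroup.mk_mul, ← QuotientGroup.mk_mul, QuotientGroup.eq] at h
    -- (g s * u)⁻¹ * (g t * v) = κ
    refine hg s t hst (u * v⁻¹) (Bl_div hu hv)
      (v * ((g s * u)⁻¹ * (g t * v)) * v⁻¹) (hKn.conj_mem _ h v) ?_
    group
  refine ⟨i, hi, ?_, ?_, ?_⟩
  · have h : (Subgroup.closure (Df (A i))).FiniteIndex := Subgroup.finiteIndex_of_le hKH
    exact h.index_ne_zero
  · by_contra hlt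
    push Not at hlt
    have h : (Subgroup.closure (Df (A i))).FiniteIndex := Subgroup.finiteIndex_of_le hKH
    have hfq : Finite (G ⧸ Subgroup.closure (Df (A i))) :=
      Subgroup.finite_quotient_of_finiteIndex
    have hcard : Nat.card (Fin (I.card + 1)) ≤ Nat.card (G ⧸ Subgroup.closure (Df (A i))) := by
      rw [Nat.card_fin]; exact hlt
    obtain ⟨f⟩ : Nonempty (Fin (I.card + 1) ↪ G ⧸ Subgroup.closure (Df (A i))) := by
      have := Fintype.ofFinite (G ⧸ Subgroup.closure (Df (A i)))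
      rw [Nat.card_eq_fintype_card, Nat.card_eq_fintype_card] at hcard
      exact Function.Embedding.nonempty_of_card_le hcard
    refine pack (fun s => (f s).out) ?_
    rintro s t hst d hd κ hκ h
    apply hst
    apply f.injective
    rw [← QuotientGroup.out_eq' (f s), ← QuotientGroup.out_eq' (f t), QuotientGroup.eq, h]
    exact mul_mem (pow_subset_closure _ _ hd) (hKH hκ)
  · intro x hx
    have hex : ∃ k, ∃ u ∈ Df (A i) ^ k, ∃ κ ∈ K, x = u * κ := by
      obtain ⟨k, hk⟩ := closure_subset_pow (hne i hi) hx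
      exact ⟨k, x, hk, 1, one_mem _, (mul_one x).symm⟩
    obtain ⟨k, hk, hmin⟩ : ∃ k, (∃ u ∈ Df (A i) ^ k, ∃ κ ∈ K, x = u * κ) ∧
        ∀ j < k, ¬ ∃ u ∈ Df (A i) ^ j, ∃ κ ∈ K, x = u * κ := by
      exact ⟨Nat.find hex, Nat.find_spec hex, fun j hj => Nat.find_min hex hj⟩
    obtain ⟨u, hu, κ, hκ, rfl⟩ := hk
    have hklt : k < (2 * r + 2) * I.card := by
      by_contra hge
      push Not at hge
      -- points on a geodesic
      have hpt : ∀ s : Fin (I.card + 1), ∃ p ∈ Df (A i) ^ ((2 * r + 2) * (s : ℕ)),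
          ∃ q ∈ Df (A i) ^ (k - (2 * r + 2) * (s : ℕ)), p * q = u := by
        intro s
        have hs : (2 * r + 2) * (s : ℕ) ≤ k :=
          (Nat.mul_le_mul_left _ (by omega : (s : ℕ) ≤ I.card)).trans hge
        have h1 : u ∈ Df (A i) ^ ((2 * r + 2) * (s : ℕ) + (k - (2 * r + 2) * (s : ℕ))) := by
          rw [Nat.add_sub_cancel' hs]; exact hu
        rw [pow_add] at h1
        obtain ⟨p, hp, q, hq, h⟩ := h1
        exact ⟨p, hp, q, hq, h⟩
      choose p hp q hq hpq using hpt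
      -- the symmetric statement
      have main : ∀ s t : Fin (I.card + 1), (s : ℕ) < t → ∀ d ∈ Df (A i) ^ (2 * r + 1),
          ∀ κ' ∈ K, (p s)⁻¹ * p t ≠ d * κ' := by
        intro s t hst d hd κ' hκ' h
        have ht : (2 * r + 2) * (t : ℕ) ≤ k :=
          (Nat.mul_le_mul_left _ (by omega : (t : ℕ) ≤ I.card)).trans hge
        have hlt : (2 * r + 2) * (s : ℕ) + (2 * r + 1) + (k - (2 * r + 2) * (t : ℕ)) < k := by
          have h2 : (2 * r + 2) * ((s : ℕ) + 1) ≤ (2 * r + 2) * (t : ℕ) :=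
            Nat.mul_le_mul_left _ hst
          rw [Nat.mul_add, Nat.mul_one] at h2
          omega
        refine hmin _ hlt ⟨p s * d * q t, mul_mem_pow (mul_mem_pow (hp s) hd) (hq t),
          ((q t)⁻¹ * κ' * q t) * κ, ?_, ?_⟩
        · refine mul_mem ?_ hκ
          have := hKn.conj_mem κ' hκ' (q t)⁻¹
          rwa [inv_inv] at this
        · have e1 : p t = p s * (d * κ') := by rw [← h, mul_inv_cancel_left]
          rw [← hpq t, e1]
          group
      refine pack p ?_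
      intro s t hst d hd κ' hκ' h
      rcases lt_or_gt_of_ne (fun h' : (s : ℕ) = t => hst (Fin.ext h')) with hlt | hlt
      · exact main s t hlt d hd κ' hκ' h
      · -- invert
        have h3 : (p t)⁻¹ * p s = d⁻¹ * (d * κ'⁻¹ * d⁻¹) := by
          have : ((p s)⁻¹ * p t)⁻¹ = (d * κ')⁻¹ := by rw [h]
          rw [mul_inv_rev, inv_inv, mul_inv_rev] at this
          rw [this]; group
        exact main t s hlt d⁻¹ (inv_mem_pow hd) (d * κ'⁻¹ * d⁻¹)
          (hKn.conj_mem _ (inv_mem hκ') d) h3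
    have hkle : k ≤ (2 * r + 2) * I.card - 1 := by omega
    exact mul_mem_pow (Df_mono (hne i hi) hkle hu) (hKD κ hκ)

/-- powers from some point on -/
lemma pow_eq_of_subset {A : Set G} (hA : A.Nonempty) {e k : ℕ} (hk : e ≤ k)
    (h : (Subgroup.closure (Df A) : Set G) ⊆ Df A ^ e) :
    Df A ^ k = (Subgroup.closure (Df A) : Set G) :=
  Set.Subset.antisymm (pow_subset_closure A k) (h.trans (Df_mono hA hk))

/-- if there are only two cells the subgroup is reached at once -/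
lemma two_cells (hne : ∀ i ∈ I, (A i).Nonempty) (hc : ∀ g, ∃ i ∈ I, g ∈ Bl (A i) r)
    (hy : Tst A I r y) (h2 : I.card = 2) {i : ι} (hi : i ∈ I) :
    (Subgroup.closure (Df (A i)) : Set G) ⊆ Df (A i) ^ (2 * r + 1) := by
  classical
  obtain ⟨j, hj, hji⟩ : ∃ j ∈ I, j ≠ i := Finset.exists_mem_ne (by omega) i
  have hI : I = {i, j} := by
    symm
    apply Finset.eq_of_subset_of_card_le
    · intro x hx
      rcases Finset.mem_insert.1 hx with rfl | hx
      · exact hi
      · rw [Finset.mem_singleton.1 hx]; exact hj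
    · rw [h2, Finset.card_pair hji.symm]
  have hsub : ∀ x ∈ Df (A i) ^ (2 * r + 1), x ∈ Lc hne hc hy := by
    intro x hx
    have h1 : ∀ l ∈ I, l ≠ j → x ∈ Df (A l) ^ (2 * r + 1) := by
      intro l hl hlj
      rw [hI, Finset.mem_insert, Finset.mem_singleton] at hl
      rcases hl with rfl | hl
      · exact hx
      · exact absurd hl hlj
    have h3 := key2 hc hy hj h1 (v := 1) (fun l hl _ => one_mem_pow (hne l hl) _)
    rw [inv_one, mul_one] at h3
    intro l hl
    rw [hI, Finset.mem_insert, Finset.mem_singleton] at hl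
    rcases hl with rfl | rfl
    · exact hx
    · exact h3
  have hle : Subgroup.closure (Df (A i)) ≤ Lc hne hc hy := by
    rw [Subgroup.closure_le]
    intro x hx
    apply hsub
    have h5 : x ∈ Df (A i) ^ 1 := by rw [pow_one]; exact hx
    exact Df_mono (hne i hi) (by omega) h5
  exact fun x hx => hle hx i hi

/-- the exponent -/
def Ex (m r : ℕ) : ℕ := (3 ^ (m - 1) * (2 * r + 1) + 3) / 2

lemma Ex_step {m : ℕ} (hm : 1 ≤ m) (r : ℕ) : Ex m (3 * r + 1) = Ex (m + 1) r := by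
  unfold Ex
  obtain ⟨k, rfl⟩ : ∃ k, m = k + 1 := ⟨m - 1, by omega⟩
  have : 3 ^ (k + 1 - 1) * (2 * (3 * r + 1) + 1) = 3 ^ (k + 1 + 1 - 1) * (2 * r + 1) := by
    rw [show k + 1 - 1 = k by omega, show k + 1 + 1 - 1 = k + 1 by omega, pow_succ]
    ring
  rw [this]

lemma Ex_one (r : ℕ) : r + 1 ≤ Ex 1 r := by
  unfold Ex
  rw [show 1 - 1 = 0 by omega, pow_zero]
  omega

lemma Ex_two (r : ℕ) : 2 * r + 1 ≤ Ex 2 r := by
  unfold Ex
  rw [show 2 - 1 = 1 by omega, pow_one]
  omega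

lemma Ex_ge {m : ℕ} (hm : 3 ≤ m) (r : ℕ) : (2 * r + 2) * m - 1 + (2 * r + 1) ≤ Ex m r := by
  unfold Ex
  have h1 : ∀ k : ℕ, 9 * (k + 1) ≤ 3 ^ (k + 2) := by
    intro k
    induction k with
    | zero => norm_num
    | succ k ih => rw [show k + 1 + 2 = (k + 2) + 1 by omega, pow_succ]; omega
  obtain ⟨k, rfl⟩ : ∃ k, m = k + 3 := ⟨m - 3, by omega⟩
  rw [show k + 3 - 1 = k + 2 by omega]
  rw [Nat.le_div_iff_mul_le (by norm_num)]
  have h2 := h1 k
  have h3 : 9 * (k + 1) * (2 * r + 1) ≤ 3 ^ (k + 2) * (2 * r + 1) := Nat.mul_le_mul_right _ h2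
  have h4 : 1 ≤ (2 * r + 2) * (k + 3) := by nlinarith
  have h5 : ((2 * r + 2) * (k + 3) - 1 + (2 * r + 1)) * 2 ≤ 9 * (k + 1) * (2 * r + 1) + 3 := by
    have h6 : (2 * r + 2) * (k + 3) - 1 + (2 * r + 1) = (2 * r + 2) * (k + 3) + 2 * r := by omega
    rw [h6]
    nlinarith
  omega

/-- the main induction -/
theorem aux (A : ι → Set G) : ∀ (m : ℕ) (I : Finset ι), I.card = m → 1 ≤ m → ∀ r : ℕ,
    (∀ i ∈ I, (A i).Nonempty) → (∀ g, ∃ i ∈ I, g ∈ Bl (A i) r) →
    ∃ i ∈ I, ∃ H : Subgroup G, H.index ≠ 0 ∧ H.index ≤ m ∧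
      ∀ k, Ex m r ≤ k → (Df (A i) ^ k : Set G) = (H : Set G) := by
  classical
  intro m
  induction m with
  | zero => intro I _ h; omega
  | succ m ih =>
    intro I hI _ r hne hc
    by_cases hm : m = 0
    · subst hm
      obtain ⟨i, rfl⟩ := Finset.card_eq_one.1 hI
      refine ⟨i, Finset.mem_singleton_self i, ⊤, by simp, by simp, fun k hk => ?_⟩
      have hAi := hne i (Finset.mem_singleton_self i)
      have h1 : ∀ g : G, g ∈ Df (A i) ^ (r + 1) := by
        intro g
        obtain ⟨a, ha⟩ := hAi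
        obtain ⟨j, hj, h⟩ := hc (g * a)
        rw [Finset.mem_singleton.1 hj] at h
        obtain ⟨d, hd, b, hb, h'⟩ := h
        have h2 : d * (b * a⁻¹) ∈ Df (A i) ^ (r + 1) :=
          mul_mem_pow hd (by rw [pow_one]; exact mem_Df hb ha)
        have h3 : d * b = g * a := h'
        rwa [← mul_assoc, h3, mul_inv_cancel_right] at h2
      rw [Subgroup.coe_top]
      exact Set.eq_univ_of_forall fun g => Df_mono hAi ((Ex_one r).trans hk) (h1 g)
    · by_cases hT : ∀ b ∈ I, ∃ z : G, ∀ i ∈ I, i ≠ b → ∀ d ∈ Df (A i) ^ (2 * r + 1),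
          d * z ∉ Bl (A i) r
      · -- success
        obtain ⟨y, hy⟩ : ∃ y : ι → G, Tst A I r y := by
          choose! y hy using hT
          exact ⟨y, hy⟩
        obtain ⟨i, hi, h1, h2, h3⟩ := success (Finset.card_pos.1 (by omega)) hne hc hy
        refine ⟨i, hi, Subgroup.closure (Df (A i)), h1, by rw [hI] at h2; exact h2,
          fun k hk => ?_⟩
        by_cases hm1 : m = 1
        · subst hm1
          exact pow_eq_of_subset (hne i hi) ((Ex_two r).trans hk)
            (two_cells hne hc hy hI hi)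
        · rw [hI] at h3
          exact pow_eq_of_subset (hne i hi) ((Ex_ge (by omega) r).trans hk) h3
      · push Not at hT
        obtain ⟨b, hb, hbz⟩ := hT
        obtain ⟨i, hi, H, h1, h2, h3⟩ := ih (I.erase b)
          (by rw [Finset.card_erase_of_mem hb, hI]; rfl) (by omega) (3 * r + 1)
          (fun i hi => hne i (Finset.mem_of_mem_erase hi)) (fun g => by
            obtain ⟨i, hi, hib, d, hd, h⟩ := hbz g
            refine ⟨i, Finset.mem_erase.2 ⟨hib, hi⟩, ?_⟩
            have := Bl_of_mul hd h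
            rwa [show 2 * r + 1 + r = 3 * r + 1 by ring] at this)
        refine ⟨i, Finset.mem_of_mem_erase hi, H, h1, by omega, fun k hk => h3 k ?_⟩
        rw [Ex_step (by omega)]
        exact hk

/-- the theorem -/
theorem cover_powers (n : ℕ) (A : Fin n → Set G) (hA : (⋃ i, A i) = Set.univ) :
    ∃ i : Fin n, ∃ H : Subgroup G, H.index ≠ 0 ∧ H.index ≤ n ∧
      ∀ k, (3 ^ (n - 1) + 3) / 2 ≤ k → ((A i * (A i)⁻¹) ^ k : Set G) = (H : Set G) := by
  classical
  have hcov : ∀ g : G, ∃ i, g ∈ A i := fun g => Set.mem_iUnion.1 (by rw [hA]; trivial)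
  obtain ⟨I, hI⟩ : ∃ I : Finset (Fin n), I = Finset.univ.filter (fun i => (A i).Nonempty) :=
    ⟨_, rfl⟩
  have hmem : ∀ i, i ∈ I ↔ (A i).Nonempty := by
    intro i; rw [hI, Finset.mem_filter]; simp
  have hcard : I.card ≤ n := by
    calc I.card ≤ (Finset.univ : Finset (Fin n)).card := Finset.card_le_univ I
      _ = n := by simp
  have hpos : 1 ≤ I.card := by
    obtain ⟨i, hi⟩ := hcov 1
    exact Finset.card_pos.2 ⟨i, (hmem i).2 ⟨1, hi⟩⟩
  obtain ⟨i, _, H, h1, h2, h3⟩ := aux A I.card I rfl hpos 0 (fun i hi => (hmem i).1 hi)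
    (fun g => by
      obtain ⟨i, hi⟩ := hcov g
      refine ⟨i, (hmem i).2 ⟨g, hi⟩, 1, by simp, g, hi, by simp⟩)
  refine ⟨i, H, h1, h2.trans hcard, fun k hk => h3 k ?_⟩
  refine le_trans ?_ hk
  unfold Ex
  apply Nat.div_le_div_right
  have : 3 ^ (I.card - 1) ≤ 3 ^ (n - 1) := Nat.pow_le_pow_right (by norm_num) (by omega)
  omega

end Pool.Agent.TH82.PC
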